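import Mathlib

/-! Ball carving in a finite graph, and the greedy colouring that follows from it. -/

namespace Pool.Agent.Lib.MP_eb34a4_co.UP

open Finset

variable {V X : Type} [DecidableEq V]

theorem count [Fintype X] (P : X → Finset V) (U : Finset V) :
    ∑ x, #(U ∩ P x) = ∑ v ∈ U, #{x | v ∈ P x} := by
  simp only [← filter_mem_eq_inter, card_filter]
  exact sum_comm

/-- Every set of vertices has an independent subset of share `n₁ / n₂`. -/
theorem carve [Fintype X] (Adj : V → V → Prop) (symm : ∀ v w, Adj v w → Adj w v)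
    (P Q : X → Finset V) {n₁ n₂ : ℕ} (n0 : 0 < n₁) (hPQ : ∀ x, P x ⊆ Q x)
    (hP : ∀ x, ∀ v ∈ P x, ∀ w ∈ P x, ¬Adj v w) (hN : ∀ x, ∀ v ∈ P x, ∀ w, Adj v w → w ∈ Q x)
    (h1 : ∀ v, n₁ ≤ #{x | v ∈ P x}) (h2 : ∀ v, #{x | v ∈ Q x} ≤ n₂) (U : Finset V) :
    ∃ A ⊆ U, (∀ v ∈ A, ∀ w ∈ A, ¬Adj v w) ∧ n₁ * #U ≤ n₂ * #A := by
  induction U using Finset.strongInduction with
  | H U ih =>
  rcases U.eq_empty_or_nonempty with rfl | ⟨v₀, hv₀⟩
  · exact ⟨∅, Subset.refl _, by simp, by simp⟩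
  obtain ⟨x, hx, hx'⟩ : ∃ x, (U ∩ Q x).Nonempty ∧ n₁ * #(U ∩ Q x) ≤ n₂ * #(U ∩ P x) := by
    by_contra hn
    have lt : ∀ x, (U ∩ Q x).Nonempty → n₂ * #(U ∩ P x) < n₁ * #(U ∩ Q x) :=
      fun x h => not_le.1 fun h' => hn ⟨x, h, h'⟩
    obtain ⟨x₀, hx₀⟩ := card_pos.1 (n0.trans_le (h1 v₀))
    have e1 : ∑ x, n₂ * #(U ∩ P x) < ∑ x, n₁ * #(U ∩ Q x) := by
      refine sum_lt_sum (fun x _ => ?_)
        ⟨x₀, mem_univ _, lt _ ⟨v₀, mem_inter.2 ⟨hv₀, hPQ _ (mem_filter.1 hx₀).2⟩⟩⟩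
      rcases (U ∩ P x).eq_empty_or_nonempty with h | h
      · simp [h]
      · exact (lt x (h.mono (inter_subset_inter_left (hPQ x)))).le
    rw [← mul_sum, ← mul_sum, count, count] at e1
    have e2 := card_nsmul_le_sum U _ n₁ fun v _ => h1 v
    have e3 := sum_le_card_nsmul U _ n₂ fun v _ => h2 v
    rw [smul_eq_mul] at e2 e3
    have e4 := Nat.mul_le_mul_left n₂ e2
    have e5 := Nat.mul_le_mul_left n₁ e3
    have e6 : n₂ * (#U * n₁) = n₁ * (#U * n₂) := by ring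
    omega
  obtain ⟨A, a1, a2, a3⟩ := ih (U \ Q x) (Finset.ssubset_iff_subset_ne.2 ⟨sdiff_subset, fun e =>
    not_disjoint_iff_nonempty_inter.2 hx (Finset.sdiff_eq_self_iff_disjoint.1 e)⟩)
  have cross : ∀ v ∈ U ∩ P x, ∀ w ∈ A, ¬Adj v w := fun v hv w hw h =>
    (mem_sdiff.1 (a1 hw)).2 (hN x v (mem_inter.1 hv).2 w h)
  refine ⟨U ∩ P x ∪ A, union_subset inter_subset_left (a1.trans sdiff_subset),
    fun v hv w hw => ?_, ?_⟩
  · rcases mem_union.1 hv with hv | hv <;> rcases mem_union.1 hw with hw | hw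
    · exact hP x v (mem_inter.1 hv).2 w (mem_inter.1 hw).2
    · exact cross v hv w hw
    · exact fun h => cross w hw v hv (symm _ _ h)
    · exact a2 v hv w hw
  · rw [card_union_of_disjoint (disjoint_left.2 fun v hv hv' =>
      (mem_sdiff.1 (a1 hv')).2 (hPQ x (mem_inter.1 hv).2)), ← card_sdiff_add_card_inter U (Q x),
      mul_add, mul_add]
    omega

/-- Greedy colouring by large independent sets. -/
theorem greedy [Fintype V] (Adj : V → V → Prop) {R : ℝ} (R1 : 1 ≤ R)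
    (h : ∀ U : Finset V, ∃ A ⊆ U, (∀ v ∈ A, ∀ w ∈ A, ¬Adj v w) ∧ (#U : ℝ) ≤ R * #A) :
    ∃ k : ℕ, (k : ℝ) ≤ R * Real.log (Fintype.card V) + 1 ∧
      ∃ c : V → Fin k, ∀ v w, Adj v w → c v ≠ c w := by
  have R0 : 0 < R := by linarith
  have q0 : 0 ≤ 1 - R⁻¹ := sub_nonneg.2 (inv_le_one_of_one_le₀ R1)
  have key : ∀ k : ℕ, ∃ U : Finset V, (#U : ℝ) ≤ (1 - R⁻¹) ^ k * Fintype.card V ∧
      ∃ c : V → ℕ, (∀ v ∉ U, c v < k) ∧ ∀ v ∉ U, ∀ w ∉ U, Adj v w → c v ≠ c w := fun k => by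
    induction k with
    | zero => exact ⟨univ, by simp, 0, by simp, by simp⟩
    | succ k ih =>
      obtain ⟨U, u1, c, c1, c2⟩ := ih
      obtain ⟨A, a1, a2, a3⟩ := h U
      have out : ∀ v ∉ U \ A, v ∉ A → v ∉ U := fun v hv hA hU => hv (mem_sdiff.2 ⟨hU, hA⟩)
      refine ⟨U \ A, ?_, fun v => if v ∈ A then k else c v, fun v hv => ?_,
        fun v hv w hw hvw => ?_⟩
      · rw [card_sdiff_of_subset a1, Nat.cast_sub (card_le_card a1), pow_succ', mul_assoc]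
        have e1 := mul_le_mul_of_nonneg_left u1 q0
        have e2 : R⁻¹ * #U ≤ #A := (inv_mul_le_iff₀ R0).2 a3
        linarith
      · dsimp only
        split_ifs with hA
        · omega
        · have := c1 v (out v hv hA)
          omega
      · dsimp only
        split_ifs with hA hA' hA'
        · exact absurd hvw (a2 v hA w hA')
        · exact (c1 w (out w hw hA')).ne'
        · exact (c1 v (out v hv hA)).ne
        · exact c2 v (out v hv hA) w (out w hw hA') hvw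
  have L0 : 0 ≤ R * Real.log (Fintype.card V) := by positivity
  obtain ⟨U, u1, c, c1, c2⟩ := key (⌊R * Real.log (Fintype.card V)⌋₊ + 1)
  have hU : U = ∅ := by
    by_contra hU
    obtain ⟨v, hv⟩ := nonempty_iff_ne_empty.2 hU
    have e0 : (0 : ℝ) < Fintype.card V := by exact_mod_cast Fintype.card_pos_iff.2 ⟨v⟩
    have e1 : (1 : ℝ) ≤ #U := by exact_mod_cast card_pos.2 ⟨v, hv⟩
    have e2 := pow_le_pow_left₀ q0 (Real.one_sub_le_exp_neg R⁻¹)
      (⌊R * Real.log (Fintype.card V)⌋₊ + 1)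
    rw [← Real.exp_nat_mul] at e2
    have e3 := Nat.lt_floor_add_one (R * Real.log (Fintype.card V))
    have e4 : ((⌊R * Real.log (Fintype.card V)⌋₊ + 1 : ℕ) : ℝ) * -R⁻¹ <
        -Real.log (Fintype.card V) := by
      rw [mul_neg, neg_lt_neg_iff, ← div_eq_mul_inv, lt_div_iff₀ R0, mul_comm]
      exact_mod_cast e3
    have e5 := (e2.trans_lt (Real.exp_lt_exp.2 e4))
    rw [Real.exp_neg, Real.exp_log e0, inv_eq_one_div (Fintype.card V : ℝ), lt_div_iff₀ e0] at e5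
    linarith
  subst hU
  refine ⟨_, ?_, fun v => ⟨c v, c1 v (notMem_empty v)⟩, fun v w h e =>
    c2 v (notMem_empty v) w (notMem_empty w) h (congrArg Fin.val e)⟩
  push_cast
  linarith [Nat.floor_le L0]

end Pool.Agent.Lib.MP_eb34a4_co.UP
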