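import Mathlib

/-! An Auerbach basis, the grid it spans, and the number of grid points in a ball. -/

namespace Pool.Agent.Lib.MP_eb34a4_co.UP

open Set Metric Module MeasureTheory

variable {E : Type} [NormedAddCommGroup E] [NormedSpace ℝ E] [FiniteDimensional ℝ E]

/-- A basis in the unit ball whose coordinate functionals have norm at most one. -/
theorem auerbach (E : Type) [NormedAddCommGroup E] [NormedSpace ℝ E] [FiniteDimensional ℝ E] :
    ∃ b : Basis (Fin (finrank ℝ E)) ℝ E, (∀ i, ‖b i‖ ≤ 1) ∧ ∀ x i, |b.repr x i| ≤ ‖x‖ := by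
  have : ProperSpace E := FiniteDimensional.proper_real E
  obtain ⟨e, -⟩ : ∃ e : Basis (Fin (finrank ℝ E)) ℝ E, True := ⟨finBasis ℝ E, trivial⟩
  have cD : Continuous fun v : Fin (finrank ℝ E) → E => |e.det v| := by
    simp only [Basis.det_apply]
    refine (Continuous.matrix_det (continuous_matrix fun i j => ?_)).abs
    exact (e.coord i).continuous_of_finiteDimensional.comp (continuous_apply j)
  obtain ⟨v, hv, hm⟩ := (isCompact_closedBall (0 : Fin (finrank ℝ E) → E) 1).exists_isMaxOn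
    ⟨0, mem_closedBall_self zero_le_one⟩ cD.continuousOn
  have mem : ∀ w : Fin (finrank ℝ E) → E, (∀ i, ‖w i‖ ≤ 1) → |e.det w| ≤ |e.det v| :=
    fun w hw => hm (mem_closedBall_zero_iff.2 ((pi_norm_le_iff_of_nonneg zero_le_one).2 hw))
  have v1 : ∀ i, ‖v i‖ ≤ 1 := fun i =>
    (norm_le_pi_norm v i).trans (mem_closedBall_zero_iff.1 hv)
  have v0 : 0 < |e.det v| := by
    refine lt_of_lt_of_le ?_ (mem (fun i => ‖e i‖⁻¹ • e i) fun i =>
      (norm_smul_inv_norm (e.ne_zero i)).le)
    rw [e.det.map_smul_univ, e.det_self, smul_eq_mul, mul_one, abs_pos]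
    exact Finset.prod_ne_zero_iff.2 fun i _ => inv_ne_zero (norm_ne_zero_iff.2 (e.ne_zero i))
  obtain ⟨hli, hsp⟩ := e.is_basis_iff_det.2 (isUnit_iff_ne_zero.2 (abs_pos.1 v0))
  refine ⟨Basis.mk hli hsp.ge, fun i => by simpa using v1 i, fun x i => ?_⟩
  by_cases x0 : x = 0
  · rw [x0, map_zero, norm_zero]
    exact abs_zero.le
  have n0 := norm_pos_iff.2 x0
  have e1 : e.det v * (‖x‖⁻¹ * (Basis.mk hli hsp.ge).repr x i) =
      e.det (Function.update v i (‖x‖⁻¹ • x)) := by
    have := LinearMap.congr_fun (e.det_smul_mk_coord_eq_det_update hli hsp.ge i) (‖x‖⁻¹ • x)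
    rwa [LinearMap.smul_apply, map_smul] at this
  have e2 := mem (Function.update v i (‖x‖⁻¹ • x)) fun j => by
    by_cases h : j = i
    · rw [h, Function.update_self]
      exact (norm_smul_inv_norm x0).le
    · rw [Function.update_of_ne h]
      exact v1 j
  rw [← e1, abs_mul, mul_le_iff_le_one_right v0, abs_mul, abs_of_pos (inv_pos.2 n0),
    inv_mul_le_iff₀ n0, mul_one] at e2
  exact e2

/-- A grid of mesh `h` with a rounding map. -/
theorem grid (E : Type) [NormedAddCommGroup E] [NormedSpace ℝ E] [FiniteDimensional ℝ E]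
    [MeasurableSpace E] [BorelSpace E] {h : ℝ} (h0 : 0 < h) :
    ∃ (φ : (Fin (finrank ℝ E) → ℤ) →+ E) (fl : E → Fin (finrank ℝ E) → ℤ), Measurable fl ∧
      (∀ a z, fl (φ a + z) = a + fl z) ∧ fl 0 = 0 ∧ (∀ a i, h * |(a i : ℝ)| ≤ ‖φ a‖) ∧
      ∀ z z', ‖z - φ (fl z) - (z' - φ (fl z'))‖ ≤ h * finrank ℝ E := by
  obtain ⟨b, b1, b2⟩ := auerbach E
  obtain ⟨φ, hφ⟩ : ∃ φ : (Fin (finrank ℝ E) → ℤ) →+ E,
      ∀ a i, b.repr (φ a) i = h * a i :=
    ⟨AddMonoidHom.mk' (fun a => b.equivFun.symm fun i => h * a i) fun a a' => by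
      rw [← map_add]
      congr 1
      ext i
      simp [mul_add], fun a i => by
      rw [← b.equivFun_apply]
      simp only [AddMonoidHom.mk'_apply, LinearEquiv.apply_symm_apply]⟩
  refine ⟨φ, fun z i => ⌊b.repr z i / h⌋, measurable_pi_lambda _ fun i => ?_, fun a z => ?_,
    by ext i; simp, fun a i => ?_, fun z z' => ?_⟩
  · exact ((b.coord i).continuous_of_finiteDimensional.measurable.div_const h).floor
  · ext i
    change ⌊b.repr (φ a + z) i / h⌋ = a i + ⌊b.repr z i / h⌋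
    rw [map_add, Finsupp.add_apply, hφ, add_div, mul_div_cancel_left₀ _ h0.ne',
      Int.floor_intCast_add]
  · have := b2 (φ a) i
    rwa [hφ, abs_mul, abs_of_pos h0] at this
  · rw [← b.sum_repr (z - _ - _)]
    refine (norm_sum_le_of_le _ (n := fun _ => h) fun i _ => ?_).trans (by simp [mul_comm])
    have key : ∀ t : ℝ, 0 ≤ t - h * ⌊t / h⌋ ∧ t - h * ⌊t / h⌋ ≤ h := fun t => by
      have e1 := (le_div_iff₀ h0).1 (Int.floor_le (t / h))
      have e2 := (div_lt_iff₀ h0).1 (Int.lt_floor_add_one (t / h))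
      exact ⟨by linarith, by linarith⟩
    have e1 := key (b.repr z i)
    have e2 := key (b.repr z' i)
    rw [norm_smul]
    refine (mul_le_mul ?_ (b1 i) (norm_nonneg _) h0.le).trans (mul_one h).le
    simp only [map_sub, Finsupp.sub_apply, hφ]
    exact abs_le.2 ⟨by linarith, by linarith⟩

/-- Comparison of the numbers of grid points in two balls, by volume. -/
theorem grid_count [MeasurableSpace E] [BorelSpace E] {G : Type} [AddCommGroup G]
    [MeasurableSpace G] [MeasurableSingletonClass G] (φ : G →+ E) (fl : E → G)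
    (hm : Measurable fl) (h1 : ∀ a z, fl (φ a + z) = a + fl z) {δ r s : ℝ}
    (h2 : ∀ z, ‖z - φ (fl z)‖ ≤ δ) (hr : δ < r) (hs : 0 < s + δ) (S T : Finset G)
    (hS : ∀ a, ‖φ a‖ < r → a ∈ S) (hT : ∀ a ∈ T, ‖φ a‖ < s) :
    T.card * (r - δ) ^ finrank ℝ E ≤ S.card * (s + δ) ^ finrank ℝ E := by
  have : ProperSpace E := FiniteDimensional.proper_real E
  obtain ⟨μ, hμ⟩ : ∃ μ : Measure E, μ.IsAddHaarMeasure := ⟨(finBasis ℝ E).addHaar, inferInstance⟩
  have cell : ∀ a, μ.real (fl ⁻¹' {a}) = μ.real (fl ⁻¹' {0}) := fun a => by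
    have : fl ⁻¹' {0} = (fun z => φ a + z) ⁻¹' (fl ⁻¹' {a}) := by
      ext z
      simp [h1]
    rw [this, measureReal_def, measureReal_def, measure_preimage_add]
  have sub : ∀ a t, ‖φ a‖ < t → fl ⁻¹' {a} ⊆ ball 0 (t + δ) := fun a t ha z hz => by
    have e1 := h2 z
    have e2 := norm_add_le (z - φ a) (φ a)
    rw [show fl z = a from hz] at e1
    rw [sub_add_cancel] at e2
    exact mem_ball_zero_iff.2 (by linarith)
  have fin : ∀ a, μ (fl ⁻¹' {a}) ≠ ⊤ := fun a =>
    ((measure_mono (sub a _ (lt_add_one _))).trans_lt measure_ball_lt_top).ne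
  have vol : ∀ t, 0 < t → μ.real (ball 0 t) = t ^ finrank ℝ E * μ.real (ball 0 1) :=
    fun t ht => by
      rw [measureReal_def, μ.addHaar_ball_of_pos _ ht, ENNReal.toReal_mul,
        ENNReal.toReal_ofReal (by positivity), measureReal_def]
  have V0 : 0 < μ.real (ball (0 : E) 1) :=
    ENNReal.toReal_pos (measure_ball_pos μ _ one_pos).ne' measure_ball_lt_top.ne
  have e1 : T.card * μ.real (fl ⁻¹' {0}) ≤ (s + δ) ^ finrank ℝ E * μ.real (ball 0 1) := by
    rw [← vol _ hs, ← nsmul_eq_mul, ← Finset.sum_const, ← Finset.sum_congr rfl fun a _ => cell a,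
      ← measureReal_biUnion_finset (fun a _ a' _ h => (disjoint_singleton.2 h).preimage fl)
        (fun a _ => hm (measurableSet_singleton a)) fun a _ => fin a]
    exact measureReal_mono (iUnion₂_subset fun a ha => sub a s (hT a ha)) measure_ball_lt_top.ne
  have e2 : (r - δ) ^ finrank ℝ E * μ.real (ball 0 1) ≤ S.card * μ.real (fl ⁻¹' {0}) := by
    rw [← vol _ (sub_pos.2 hr), ← nsmul_eq_mul, ← Finset.sum_const,
      ← Finset.sum_congr rfl fun a _ => cell a]
    refine (measureReal_mono (fun z hz => mem_iUnion₂.2 ⟨fl z, hS _ ?_, rfl⟩) ?_).trans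
      (measureReal_biUnion_finset_le S _)
    · have e1 := h2 z
      have e2 := norm_sub_le z (z - φ (fl z))
      rw [sub_sub_cancel] at e2
      linarith [mem_ball_zero_iff.1 hz]
    · exact ((measure_biUnion_finset_le S _).trans_lt
        (ENNReal.sum_lt_top.2 fun a _ => (fin a).lt_top)).ne
  have e3 := mul_le_mul_of_nonneg_left e1 (Nat.cast_nonneg (α := ℝ) S.card)
  have e4 := mul_le_mul_of_nonneg_left e2 (Nat.cast_nonneg (α := ℝ) T.card)
  refine le_of_mul_le_mul_right ?_ V0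
  linarith

end Pool.Agent.Lib.MP_eb34a4_co.UP
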