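import Pool.Agent.Lib.MP_eb34a4_co.UP.Carve
import Pool.Agent.Lib.MP_eb34a4_co.UP.Grid

/-! A colouring of a normed space of dimension `d` with about `3 ^ d` colours. -/

namespace Pool.Agent.Lib.MP_eb34a4_co.UP

open Finset Module

theorem ratio {d : ℕ} (hd : 1 ≤ d) {δ : ℝ} (hδ : δ * (8 * d) = 1) :
    ((3 + δ) / 2 + δ) ^ d ≤ 2 * 3 ^ d * ((1 - δ) / 2 - δ) ^ d := by
  have d1 : (1 : ℝ) ≤ d := by exact_mod_cast hd
  have δ0 : 0 < δ := by
    by_contra h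
    nlinarith
  have δ1 : δ ≤ 1 / 8 := by nlinarith
  have e1 := one_add_mul_le_pow (a := -4 * δ) (by linarith) d
  have e2 : (((3 + δ) / 2 + δ) * (1 + -4 * δ)) ^ d ≤ (3 * ((1 - δ) / 2 - δ)) ^ d :=
    pow_le_pow_left₀ (mul_nonneg (by linarith) (by linarith)) (by nlinarith) d
  rw [mul_pow, mul_pow] at e2
  have e3 : 0 ≤ ((3 + δ) / 2 + δ) ^ d := by positivity
  have e4 := mul_le_mul_of_nonneg_left (show 1 / 2 ≤ (1 + -4 * δ) ^ d by linarith) e3
  linarith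

theorem main (E : Type) [NormedAddCommGroup E] [NormedSpace ℝ E] [FiniteDimensional ℝ E]
    [MeasurableSpace E] [BorelSpace E] (hd : 1 ≤ finrank ℝ E) :
    ∃ k : ℕ, (k : ℝ) ≤ 4 * finrank ℝ E * Real.log (4 * finrank ℝ E) * 3 ^ finrank ℝ E + 1 ∧
      ∃ c : E → Fin k, (∀ i, MeasurableSet (c ⁻¹' {i})) ∧
        ∀ x y : E, ‖x - y‖ = 1 → c x ≠ c y := by
  classical
  have d1 : (1 : ℝ) ≤ finrank ℝ E := by exact_mod_cast hd
  obtain ⟨h, hh⟩ : ∃ h : ℝ, h = 1 / (8 * (finrank ℝ E : ℝ) ^ 2) := ⟨_, rfl⟩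
  have h0 : 0 < h := by rw [hh]; positivity
  obtain ⟨φ, fl, hm, f1, f0, f2, f3⟩ := grid E h0
  obtain ⟨δ, hδ⟩ : ∃ δ, δ = h * finrank ℝ E := ⟨_, rfl⟩
  rw [← hδ] at f3
  have δ8 : δ * (8 * finrank ℝ E) = 1 := by rw [hδ, hh]; field_simp
  have δ0 : 0 < δ := by rw [hδ]; positivity
  have δ1 : δ ≤ 1 / 8 := by nlinarith
  obtain ⟨N, hN⟩ : ∃ N : ℕ, N = (4 * finrank ℝ E) ^ 2 := ⟨_, rfl⟩
  have : NeZero N := ⟨by rw [hN]; positivity⟩
  have hN2 : h * N = 2 := by rw [hN, hh]; push_cast; field_simp; norm_num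
  obtain ⟨π, hπ⟩ : ∃ π : (Fin (finrank ℝ E) → ℤ) →+ (Fin (finrank ℝ E) → ZMod N),
      ∀ a i, π a i = (a i : ZMod N) :=
    ⟨AddMonoidHom.mk' (fun a i => (a i : ZMod N)) fun a b => by ext i; simp, fun _ _ => rfl⟩
  have small : ∀ a i, ‖φ a‖ < 2 → |a i| < N := fun a i ha => by
    have e : |(a i : ℝ)| < N := lt_of_mul_lt_mul_left (by linarith [f2 a i]) h0.le
    exact_mod_cast e
  have ker : ∀ a, ‖φ a‖ < 2 → π a = 0 → a = 0 := fun a ha e => funext fun i =>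
    Int.eq_zero_of_abs_lt_dvd ((ZMod.intCast_zmod_eq_zero_iff_dvd _ _).1
      ((hπ a i).symm.trans (congrFun e i))) (small a i ha)
  obtain ⟨T, hT⟩ : ∃ T : ℝ → Finset (Fin (finrank ℝ E) → ℤ), ∀ r ≤ 2, ∀ a,
      a ∈ T r ↔ ‖φ a‖ < r :=
    ⟨fun r => {a ∈ Fintype.piFinset fun _ => Icc (-N : ℤ) N | ‖φ a‖ < r}, fun r hr a => by
      rw [mem_filter, and_iff_right_iff_imp, Fintype.mem_piFinset]
      exact fun ha i => mem_Icc.2 (abs_le.1 (small a i (ha.trans_le hr)).le)⟩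
  have t1 := hT ((1 - δ) / 2) (by linarith)
  have t2 := hT ((3 + δ) / 2) (by linarith)
  have cnt : ∀ (S : Finset (Fin (finrank ℝ E) → ZMod N)) v,
      #{x | v ∈ ({w | w - x ∈ S} : Finset _)} = #S := fun S v =>
    card_nbij' (fun x => v - x) (fun x => v - x) (by intro x; simp) (by intro x; simp)
      (by intro x; simp) (by intro x; simp)
  have c1 : #((T ((1 - δ) / 2)).image π) = #(T ((1 - δ) / 2)) :=
    card_image_of_injOn fun a ha b hb e => sub_eq_zero.1 (ker _ (by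
      have := norm_sub_le (φ a) (φ b)
      rw [map_sub]
      linarith [(t1 a).1 ha, (t1 b).1 hb]) (by rw [map_sub, e, sub_self]))
  have n0 : 0 < #(T ((1 - δ) / 2)) := card_pos.2 ⟨0, (t1 0).2 (by simp; linarith)⟩
  have hc := carve (V := Fin (finrank ℝ E) → ZMod N)
    (fun v w => ∃ b, π b = w - v ∧ 1 - δ ≤ ‖φ b‖ ∧ ‖φ b‖ ≤ 1 + δ)
    (fun v w ⟨b, e, hb⟩ => ⟨-b, by rw [map_neg, e, neg_sub], by rwa [map_neg, norm_neg]⟩)
    (fun x => {w | w - x ∈ (T ((1 - δ) / 2)).image π})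
    (fun x => {w | w - x ∈ (T ((3 + δ) / 2)).image π}) (n₂ := #(T ((3 + δ) / 2))) n0
    (fun x w hw => mem_filter.2 ⟨mem_univ _, image_subset_image
      (fun a ha => (t2 a).2 (by linarith [(t1 a).1 ha])) (mem_filter.1 hw).2⟩)
    (fun x v hv w hw ⟨b, e, hb⟩ => by
      obtain ⟨a, ha, ea⟩ := mem_image.1 (mem_filter.1 hv).2
      obtain ⟨a', ha', ea'⟩ := mem_image.1 (mem_filter.1 hw).2
      have e1 := norm_sub_le (φ a') (φ a)
      have e2 := norm_sub_le (φ a' - φ a) (φ b)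
      have e3 := (t1 a).1 ha
      have e4 := (t1 a').1 ha'
      have e5 := sub_eq_zero.1 (ker (a' - a - b) (by rw [map_sub, map_sub]; linarith [hb.2])
        (by rw [map_sub, map_sub, e, ea, ea']; abel))
      rw [← map_sub, e5] at e1
      linarith [hb.1])
    (fun x v hv w ⟨b, e, hb⟩ => by
      obtain ⟨a, ha, ea⟩ := mem_image.1 (mem_filter.1 hv).2
      refine mem_filter.2 ⟨mem_univ _, mem_image.2 ⟨a + b, (t2 _).2 ?_, ?_⟩⟩
      · have := norm_add_le (φ a) (φ b)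
        rw [map_add]
        linarith [(t1 a).1 ha, hb.2]
      · rw [map_add, e, ea]
        abel)
    (fun v => ((cnt _ v).trans c1).ge) fun v => (cnt _ v).trans_le card_image_le
  have vol := grid_count φ fl hm f1 (δ := δ) (fun z => by simpa [f0] using f3 z 0)
    (by linarith) (by linarith) _ _ (fun a => (t1 a).2) fun a => (t2 a).1
  have p0 : 0 < ((1 - δ) / 2 - δ) ^ finrank ℝ E := pow_pos (by linarith) _
  have rat : (#(T ((3 + δ) / 2)) : ℝ) ≤ #(T ((1 - δ) / 2)) * (2 * 3 ^ finrank ℝ E) := by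
    refine le_of_mul_le_mul_right (vol.trans ?_) p0
    rw [mul_assoc]
    exact mul_le_mul_of_nonneg_left (ratio hd δ8) (Nat.cast_nonneg _)
  obtain ⟨k, hk, c, hc'⟩ := greedy _ (R := 2 * 3 ^ finrank ℝ E)
    (by linarith [one_le_pow₀ (n := finrank ℝ E) (by norm_num : (1 : ℝ) ≤ 3)]) fun U => by
      obtain ⟨A, a1, a2, a3⟩ := hc U
      refine ⟨A, a1, a2, le_of_mul_le_mul_left ?_ (Nat.cast_pos.2 n0)⟩
      rw [← mul_assoc]
      exact le_trans (by exact_mod_cast a3) (mul_le_mul_of_nonneg_right rat (Nat.cast_nonneg _))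
  refine ⟨k, hk.trans (le_of_eq ?_), fun z => c (π (fl z)), fun i =>
    hm (Set.to_countable ((fun a => c (π a)) ⁻¹' {i})).measurableSet, fun x y hxy =>
    hc' _ _ ⟨fl y - fl x, map_sub _ _ _, ?_⟩⟩
  · rw [Fintype.card_pi_const, ZMod.card, hN]
    push_cast
    rw [Real.log_pow, Real.log_pow]
    push_cast
    ring
  · have e1 := f3 x y
    have e2 := abs_norm_sub_norm_le (x - y) (φ (fl x) - φ (fl y))
    rw [show x - y - (φ (fl x) - φ (fl y)) = x - φ (fl x) - (y - φ (fl y)) by abel, hxy,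
      norm_sub_rev (φ _), ← map_sub, abs_le] at e2
    exact ⟨by linarith [e2.2], by linarith [e2.1]⟩

end Pool.Agent.Lib.MP_eb34a4_co.UP
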